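import Pool.Agent.AFJ.Stmts

/-!
# BEJ: the jet of the form of the network
-/

set_option autoImplicit false

open scoped BigOperators Matrix

noncomputable section

namespace Pool.Agent.AFJ.H32

open Pool.Agent.LE.QF Pool.Agent.AFJ

theorem hj_cast2 {ι : Type} [Fintype ι] [DecidableEq ι] {E : Type} [NormedAddCommGroup E]
    [NormedSpace ℝ E] {F F' : ℝ × (ι → ℝ) → E} {q : ℝ × (ι → ℝ)} {v v' : E} {g g' : ι → E}
    {l l' : E} (h : HJ F q v g l) (hF : F = F') (hv : v = v') (hg : g = g') (hl : l = l') :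
    HJ F' q v' g' l' := by
  subst hF hv hg hl
  exact h

variable {X : Type} [Fintype X] [DecidableEq X]

theorem dl_apply (K : Matrix X X ℝ) (a b : X) :
    Dl K a b = (if a = b then ∑ y, K a y else 0) - K a b := by
  simp only [Dl, Matrix.sub_apply, Matrix.diagonal_apply]

theorem dl_add (K L : Matrix X X ℝ) : Dl (K + L) = Dl K + Dl L := by
  ext a b
  rw [Matrix.add_apply, dl_apply, dl_apply, dl_apply]
  simp only [Matrix.add_apply, Finset.sum_add_distrib]
  split_ifs <;> ring

theorem dl_row (K : Matrix X X ℝ) (a : X) : ∑ b, Dl K a b = 0 := by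
  simp only [dl_apply, Finset.sum_sub_distrib, Finset.sum_ite_eq, Finset.mem_univ, if_true]
  ring

theorem mul3_apply (A : Matrix X X ℝ) (D : X → ℝ) (B : Matrix X X ℝ) (a b : X) :
    (A * Matrix.diagonal D * B) a b = ∑ c, A a c * D c * B c b := by
  rw [Matrix.mul_apply]
  refine Finset.sum_congr rfl fun c _ => ?_
  rw [Matrix.mul_diagonal]

/-- `C D C - diag (C 1) D C - C D diag (C 1)` -/
def qm (C : Matrix X X ℝ) (D : X → ℝ) : Matrix X X ℝ :=
  fun x y => (C * Matrix.diagonal D * C) x y - (∑ z, C x z) * D x * C x y -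
      C x y * D y * ∑ z, C y z

theorem dl_quad (C : Matrix X X ℝ) (D : X → ℝ) :
    Dl (qm C D) = -(Dl C * Matrix.diagonal D * Dl C) := by
  have hW : ∀ x y, (Dl C * Matrix.diagonal D * Dl C) x y =
      (if x = y then (∑ z, C x z) * D x * (∑ z, C x z) else 0) + qm C D x y := by
    intro x y
    simp only [qm]
    rw [mul3_apply, mul3_apply]
    have e1 : ∀ c, Dl C x c * D c * Dl C c y =
        (if x = c then (∑ z, C x z) * D x * Dl C x y else 0) -
        (if c = y then C x y * D y * (∑ z, C y z) else 0) + C x c * D c * C c y := by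
      intro c
      rw [dl_apply C x c, dl_apply C c y]
      by_cases h1 : x = c
      · subst h1
        rw [if_pos rfl, if_pos rfl, dl_apply C x y]
        by_cases h2 : x = y
        · subst h2
          simp only [if_true]
          ring
        · simp only [if_neg h2]
          ring
      · rw [if_neg h1, if_neg h1]
        by_cases h2 : c = y
        · subst h2
          simp only [if_true]
          ring
        · simp only [if_neg h2]
          ring
    rw [Finset.sum_congr rfl fun c _ => e1 c]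
    rw [Finset.sum_add_distrib, Finset.sum_sub_distrib]
    simp only [Finset.sum_ite_eq, Finset.sum_ite_eq', Finset.mem_univ, if_true]
    rw [dl_apply C x y]
    split_ifs with h
    · ring
    · ring
  have hrow : ∀ x, ∑ y, (Dl C * Matrix.diagonal D * Dl C) x y = 0 := by
    intro x
    simp only [mul3_apply]
    rw [Finset.sum_comm]
    refine Finset.sum_eq_zero fun c _ => ?_
    rw [← Finset.mul_sum, dl_row, mul_zero]
  ext x y
  rw [dl_apply, Matrix.neg_apply]
  have h1 := hrow x
  simp only [hW, Finset.sum_add_distrib, Finset.sum_ite_eq, Finset.mem_univ, if_true] at h1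
  rw [hW x y]
  split_ifs with h
  · linarith
  · ring

theorem sum_cd (G : Matrix X X ℂ) (κ : X → ℝ) (A : Finset X) (x : X) :
    ∑ y, cd G κ A x y = if x ∈ A then κ x * rho G κ A x else 0 := by
  by_cases hx : x ∈ A
  · rw [if_pos hx]
    simp only [cd, hx, true_and, rho]
    rw [Finset.sum_ite_mem, Finset.univ_inter, Finset.mul_sum]
    refine Finset.sum_congr rfl fun y _ => ?_
    ring
  · rw [if_neg hx]
    refine Finset.sum_eq_zero fun y _ => ?_
    simp only [cd, hx, false_and, if_false]

/-- the generator of the conductances -/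
def lcd (G : Matrix X X ℂ) (κ g : X → ℝ) (μ : X → ℂ) (A b : Finset X) : Matrix X X ℝ :=
  fun x y => if x ∈ A ∧ y ∈ A then
    κ x * κ y * ((KK G * Matrix.diagonal (ind b) * KK G) x y + EK G μ x y) -
      (ind b x * g x * κ y + κ x * (ind b y * g y)) * KK G x y else 0

theorem lcd_eq (G : Matrix X X ℂ) (κ g : X → ℝ) (μ : X → ℂ) (A b : Finset X) (hb : b ⊆ A)
    (hκ : ∀ x, κ x ≠ 0) :
    lcd G κ g μ A b =
      qm (cd G κ A) (fun x => ind b x / κ x ^ 2) + ee G κ g μ A b := by
  ext x y
  rw [Matrix.add_apply]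
  simp only [qm, sum_cd]
  by_cases h : x ∈ A ∧ y ∈ A
  · obtain ⟨hx, hy⟩ := h
    have hkx := hκ x
    have hky := hκ y
    rw [mul3_apply]
    have e1 : ∀ c, cd G κ A x c * (ind b c / κ c ^ 2) * cd G κ A c y =
        κ x * κ y * (KK G x c * ind b c * KK G c y) := by
      intro c
      by_cases hc : c ∈ A
      · have hkc := hκ c
        simp only [cd, hx, hy, hc, and_self, if_true]
        field_simp
      · have hcb : ind b c = 0 := by
          simp only [ind]
          rw [if_neg fun h => hc (hb h)]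
        rw [hcb]
        ring
    rw [Finset.sum_congr rfl fun c _ => e1 c, ← Finset.mul_sum]
    simp only [lcd, ee, cd, hx, hy, and_self, if_true, mul3_apply]
    field_simp
    ring
  · have hz : cd G κ A x y = 0 := by
      simp only [cd, if_neg h]
    have hz2 : (cd G κ A * Matrix.diagonal (fun x => ind b x / κ x ^ 2) * cd G κ A) x y = 0 := by
      rw [mul3_apply]
      refine Finset.sum_eq_zero fun c _ => ?_
      by_cases hx : x ∈ A
      · have hy : ¬ y ∈ A := fun hy => h ⟨hx, hy⟩
        simp only [cd, hy, and_false, if_false, mul_zero]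
      · simp only [cd, hx, false_and, if_false, zero_mul]
    rw [hz, hz2]
    simp only [lcd, ee, if_neg h]
    ring

theorem hj_kf (hJ : JalStmt) {b : Finset X} {q : ℝ × (b → ℝ)}
    {Gm : ℝ × (b → ℝ) → Matrix X X ℂ} {kf : ℝ → X → ℝ} {G : Matrix X X ℂ} {κ : X → ℝ}
    {mb : X → ℂ} (hH : BJ q Gm kf G κ mb) (x : X) :
    HJ (fun r : ℝ × (b → ℝ) => kf r.1 x) q (κ x) (fun _ => 0) (-(ind b x * (mb x).im)) := by
  obtain ⟨_, _, _, _, _, _, ht, _⟩ := hJ b ℝ q
  have h1 := ht (fun t => kf t x) (hH.hk x).1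
  exact hj_cast2 h1 rfl (hH.hk x).2.1 rfl (hH.hk x).2.2

theorem hj_cd (hJ : JalStmt) (hB : BkjStmt) {b : Finset X} (A : Finset X) {q : ℝ × (b → ℝ)}
    {Gm : ℝ × (b → ℝ) → Matrix X X ℂ} {kf : ℝ → X → ℝ} {G : Matrix X X ℂ} {κ : X → ℝ}
    {mb : X → ℂ} (hH : BJ q Gm kf G κ mb) (x y : X) :
    HJ (fun r : ℝ × (b → ℝ) => cd (Gm r) (kf r.1) A x y) q (cd G κ A x y)
      (fun c => cdc G κ A (c : X) x y)
      (lcd G κ (fun x => (mb x).im) (mub G mb b) A b x y) := by
  obtain ⟨hc, _, hadd, _, _, _, _, _⟩ := hJ b ℝ q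
  by_cases h : x ∈ A ∧ y ∈ A
  · have hK := (hB hJ X b q Gm kf G κ mb hH).2.1 x y
    have h1 := (hadd _ _ _ _ _ _ _ _ (hj_kf hJ hH x) (hj_kf hJ hH y)).2.2
    have h2 := (hadd _ _ _ _ _ _ _ _ h1 hK).2.2
    refine hj_cast2 h2 ?_ ?_ ?_ ?_
    · funext r
      simp only [cd, if_pos h]
    · simp only [cd, if_pos h]
    · funext c
      simp only [cdc, if_pos h]
      ring
    · simp only [lcd, if_pos h, Matrix.add_apply]
      simp only [mul_zero, zero_mul, add_zero, Finset.sum_const_zero]
      ring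
  · refine hj_cast2 (hc 0) ?_ ?_ ?_ ?_
    · funext r
      simp only [cd, if_neg h]
    · simp only [cd, if_neg h]
    · funext c
      simp only [cdc, if_neg h]
    · simp only [lcd, if_neg h]

theorem bej : BejStmt := by
  intro hJ hB X _ _ b A q Gm kf G κ mb hH hbA hκ
  have hl : -(EE G κ A * Matrix.diagonal (fun x => ind b x / κ x ^ 2) * EE G κ A) +
      Dl (ee G κ (fun x => (mb x).im) (mub G mb b) A b) =
      Dl (lcd G κ (fun x => (mb x).im) (mub G mb b) A b) := by
    rw [lcd_eq G κ (fun x => (mb x).im) (mub G mb b) A b hbA hκ, dl_add]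
    simp only [EE]
    rw [← dl_quad (cd G κ A) (fun x => ind b x / κ x ^ 2)]
  rw [hl]
  obtain ⟨hc, _, hadd, _, _, hsum, _, _⟩ := hJ b ℝ q
  intro x y
  by_cases h : x = y
  · have h1 := hsum X Finset.univ (fun z r => cd (Gm r) (kf r.1) A x z)
      (fun z => cd G κ A x z) (fun z => lcd G κ (fun x => (mb x).im) (mub G mb b) A b x z)
      (fun z c => cdc G κ A (c : X) x z) (fun z _ => hj_cd hJ hB A hH x z)
    have h2 := (hadd _ _ _ _ _ _ _ _ h1 (hj_cd hJ hB A hH x y)).2.1
    refine hj_cast2 h2 ?_ ?_ ?_ ?_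
    · funext r
      simp only [EE, dl_apply, if_pos h]
    · simp only [EE, dl_apply, if_pos h]
    · funext c
      simp only [Ec, dl_apply, if_pos h]
    · simp only [dl_apply, if_pos h]
  · have h2 := (hadd _ _ _ _ _ _ _ _ (hc 0) (hj_cd hJ hB A hH x y)).2.1
    refine hj_cast2 h2 ?_ ?_ ?_ ?_
    · funext r
      simp only [EE, dl_apply, if_neg h]
    · simp only [EE, dl_apply, if_neg h]
    · funext c
      simp only [Ec, dl_apply, if_neg h]
    · simp only [dl_apply, if_neg h]

end Pool.Agent.AFJ.H32
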