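import Pool.Agent.AFJ.Stmts

/-!
# LAT: the triple sum in the drift of `Λ_x`
-/

set_option autoImplicit false

open scoped BigOperators Matrix

noncomputable section

namespace Pool.Agent.AFJ.H32

open Pool.Agent.LE.QF Pool.Agent.AFJ

variable {X : Type} [Fintype X] [DecidableEq X]

/-- the form of a matrix on the sum of two multiples of basis vectors -/
theorem qf_two (S : Matrix X X ℝ) (x y : X) (s : ℝ) :
    qf S (fun z => (if z = x then 1 else 0) + s * (if z = y then 1 else 0)) =
      S x x + s * S x y + s * S y x + s ^ 2 * S y y := by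
  have h1 : ∀ z, (S *ᵥ fun z => (if z = x then (1 : ℝ) else 0) + s * (if z = y then 1 else 0)) z =
      S z x + s * S z y := by
    intro z
    simp only [Matrix.mulVec, dotProduct, mul_add, mul_ite, mul_one, mul_zero]
    rw [Finset.sum_add_distrib]
    simp only [Finset.sum_ite_eq', Finset.mem_univ, if_true]
    ring
  simp only [qf, h1]
  simp only [add_mul, mul_add, ite_mul, mul_ite, one_mul, mul_one, zero_mul, mul_zero]
  simp only [Finset.sum_add_distrib, Finset.sum_ite_eq', Finset.mem_univ, if_true]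
  ring

theorem abs_entry_le (S : Matrix X X ℝ) (hs : ∀ x y, S x y = S y x) (hp : ∀ h, 0 ≤ qf S h)
    (R : Finset X) (S0 : ℝ) (hR : ∀ x ∈ R, S x x ≤ S0) (x y : X) (hx : x ∈ R) (hy : y ∈ R) :
    S x y ≤ S0 := by
  have h1 := hp (fun z => (if z = x then 1 else 0) + (-1) * (if z = y then 1 else 0))
  rw [qf_two] at h1
  have h2 := hR x hx
  have h3 := hR y hy
  have h4 := hs x y
  nlinarith

omit [Fintype X] [DecidableEq X] in
theorem kk_symm (G : Matrix X X ℂ) (h : ∀ x y, G x y = G y x) (x y : X) : KK G x y = KK G y x := by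
  simp only [KK]
  rw [h x y]

omit [Fintype X] [DecidableEq X] in
theorem kk_nonneg (G : Matrix X X ℂ) (x y : X) : 0 ≤ KK G x y := by
  simp only [KK]
  positivity

theorem lat : LatStmt := by
  intro X _ _ G κ b R S x κR a r S0 hN hbR hκR hκ hr hSs hSp hS0 hS0n hf
  have hG := hN.hs
  let u : X → ℝ := fun y => if y ∈ R then KK G x y else 0
  have hu0 : ∀ y, y ∉ R → u y = 0 := fun y hy => by simp only [u, if_neg hy]
  have hun : ∀ y, 0 ≤ u y := by
    intro y
    simp only [u]
    split_ifs
    · exact kk_nonneg G x y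
    · exact le_refl 0
  have h1 := hf u hu0
  have h2 : ∑ y, u y ^ 2 = LaR G R x := by
    simp only [u, LaR]
    rw [← Finset.sum_filter_add_sum_filter_not Finset.univ (fun y => y ∈ R)]
    have e1 : ∑ y ∈ Finset.univ.filter (fun y => ¬ y ∈ R), (if y ∈ R then KK G x y else 0) ^ 2 = 0 := by
      refine Finset.sum_eq_zero fun y hy => ?_
      rw [if_neg (Finset.mem_filter.1 hy).2]
      ring
    rw [e1, add_zero]
    have e2 : Finset.univ.filter (fun y => y ∈ R) = R := by
      ext y
      simp
    rw [e2]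
    refine Finset.sum_congr rfl fun y hy => ?_
    rw [if_pos hy]
  have hsumR : ∑ y, u y = ∑ y ∈ R, KK G x y := by
    simp only [u]
    rw [Finset.sum_ite_mem, Finset.univ_inter]
  have h3 : qf S u ≤ S0 * (r / κR) ^ 2 := by
    have e1 : qf S u ≤ S0 * (∑ y, u y) ^ 2 := by
      have e2 : qf S u = ∑ y, ∑ z, u y * (S y z * u z) := by
        simp only [qf, Matrix.mulVec, dotProduct, Finset.mul_sum]
      rw [e2, pow_two, Finset.sum_mul_sum, Finset.mul_sum]
      refine Finset.sum_le_sum fun y _ => ?_
      rw [Finset.mul_sum]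
      refine Finset.sum_le_sum fun z _ => ?_
      by_cases hy : y ∈ R
      · by_cases hz : z ∈ R
        · have h5 := abs_entry_le S hSs hSp R S0 hS0 y z hy hz
          have h6 : 0 ≤ u y * u z := mul_nonneg (hun y) (hun z)
          nlinarith
        · rw [hu0 z hz]
          simp
      · rw [hu0 y hy]
        simp
    have e3 : ∑ y, u y ≤ r / κR := by
      rw [hsumR, le_div_iff₀ hκR, Finset.sum_mul]
      refine le_trans (Finset.sum_le_sum fun c hc => ?_) hr
      have := hκ c hc
      have h7 := kk_nonneg G x c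
      nlinarith
    have e4 : 0 ≤ ∑ y, u y := Finset.sum_nonneg fun y _ => hun y
    refine le_trans e1 (mul_le_mul_of_nonneg_left ?_ hS0n)
    exact pow_le_pow_left₀ e4 e3 2
  have h4 : ∑ y ∈ R, ∑ c ∈ b, KK G x y * KK G x c * KK G c y ≤ qf (KK G) u := by
    have e2 : qf (KK G) u = ∑ y ∈ R, ∑ c ∈ R, KK G x y * KK G x c * KK G c y := by
      have e5 : ∀ y, u y * (KK G *ᵥ u) y =
          if y ∈ R then ∑ c ∈ R, KK G x y * KK G x c * KK G c y else 0 := by
        intro y
        by_cases hy : y ∈ R
        · rw [if_pos hy]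
          simp only [u, if_pos hy, Matrix.mulVec, dotProduct, mul_ite, mul_zero]
          rw [Finset.sum_ite_mem, Finset.univ_inter, Finset.mul_sum]
          refine Finset.sum_congr rfl fun c _ => ?_
          rw [kk_symm G hG y c]
          ring
        · rw [if_neg hy, hu0 y hy, zero_mul]
      simp only [qf, e5]
      rw [Finset.sum_ite_mem, Finset.univ_inter]
    rw [e2]
    refine Finset.sum_le_sum fun y _ => ?_
    refine Finset.sum_le_sum_of_subset_of_nonneg hbR fun c _ _ => ?_
    exact mul_nonneg (mul_nonneg (kk_nonneg G x y) (kk_nonneg G x c)) (kk_nonneg G c y)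
  calc ∑ y ∈ R, ∑ c ∈ b, KK G x y * KK G x c * KK G c y ≤ qf (KK G) u := h4
    _ ≤ a * ∑ y, u y ^ 2 + qf S u := h1
    _ ≤ a * LaR G R x + S0 * (r / κR) ^ 2 := by
      rw [h2]
      linarith

end Pool.Agent.AFJ.H32
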